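import Mathlib

/-!
MP_b47bfb_co: clique minors in graphs which are the union of a clique and an `h`-colourable graph,
and in graphs whose induced subgraphs satisfy `χ ≤ ω + c`.

* If `V` splits into a clique and a set inducing a bipartite graph, then `K_χ` is a minor
  (Hadwiger's conjecture); if it splits into a clique and a set inducing a `3`-colourable graph, then
  `K_{χ - 1}` is a minor (Q1). In general `K_{χ - h + 2}` is a minor if the rest is
  `h`-colourable, `h ≥ 2`.
* If all induced subgraphs satisfy `χ ≤ ω + 2`, then `K_{χ - 1}` is a minor (Q1), for example if `V`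
  splits into a set inducing a perfect graph and a set inducing a bipartite graph.

Proof. Let `S` be a minimal set of vertices such that `G[S]` is not `q`-colourable.
`crit`: let `K` be a clique of `G[S]` and `C` a component of `G[S] - K`. If a vertex `y` of `K`
has no neighbour in `C`, then the colourings of `G[S] - C` and of `G[S] - y` can be glued along the
clique `K - y`, a contradiction. So `C` and the vertices of `K` are the branch sets of a clique
minor.
`tight`: let `K` be a clique such that the rest has a colouring with `h` colours, but the whole graph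
has no colouring with `|K| + h - 1` colours. Call a set good if every vertex of `K` has a
neighbour in it. A component `D` of the rest that is not good may use the colour of a vertex of `K`
in place of any colour, and so may the components of parts of `D`. If there were no component `D`
of the rest with a good component `E` of the part of `D` with the first `h - 1` colours and a good
component of `D - E`, then in this way one colour could be saved everywhere. The two good sets and
the vertices of `K` are the branch sets.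
-/

set_option autoImplicit false

namespace Pool.Agent.Results.MP_b47bfb_co.CliquePlusColourable

/-- `K_m` is a minor of `G`. -/
def HasCliqueMinor {V : Type} (G : SimpleGraph V) (m : ℕ) : Prop :=
  ∃ B : Fin m → Set V, (∀ i, (G.induce (B i)).Connected) ∧
    (∀ i j, i ≠ j → Disjoint (B i) (B j)) ∧
    ∀ i j, i ≠ j → ∃ u ∈ B i, ∃ v ∈ B j, G.Adj u v

/-- Every induced subgraph of `G` satisfies `χ ≤ ω + c`. -/
def Gap {V : Type} (G : SimpleGraph V) (c : ℕ) : Prop :=
  ∀ (S : Set V) (k : ℕ), (G.induce S).CliqueFree (k + 1) → (G.induce S).Colorable (k + c)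

/-- `G` is perfect: every induced subgraph satisfies `χ ≤ ω`. -/
def Perfect {V : Type} (G : SimpleGraph V) : Prop := Gap G 0

lemma colS_iff {V : Type} (G : SimpleGraph V) (S : Set V) (q : ℕ) (hq : 1 ≤ q) :
    (G.induce S).Colorable q ↔
      ∃ f : V → Fin q, ∀ u ∈ S, ∀ v ∈ S, G.Adj u v → f u ≠ f v := by
  classical
  constructor
  · rintro ⟨C⟩
    refine ⟨fun v => if h : v ∈ S then C ⟨v, h⟩ else ⟨0, hq⟩, ?_⟩
    intro u hu v hv huv
    simp only [hu, hv, dif_pos]
    exact C.valid (by simpa using huv)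
  · rintro ⟨f, hf⟩
    exact ⟨SimpleGraph.Coloring.mk (fun v => f v.1) (fun {u v} h => hf u.1 u.2 v.1 v.2 (by
      simpa using h))⟩

lemma conn_singleton {V : Type} (G : SimpleGraph V) (r : V) :
    (G.induce ({r} : Set V)).Connected := by
  have : Nonempty ({r} : Set V) := ⟨⟨r, rfl⟩⟩
  refine ⟨fun u v => ?_⟩
  have : u = v := Subsingleton.elim u v
  subst this
  exact SimpleGraph.Reachable.refl _

lemma exists_perm {q : ℕ} {ι : Type} (g1 g2 : ι → Fin q) (h1 : Function.Injective g1)
    (h2 : Function.Injective g2) : ∃ σ : Equiv.Perm (Fin q), ∀ y, σ (g2 y) = g1 y := by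
  classical
  let e : {x // x ∈ Set.range g2} ≃ {x // x ∈ Set.range g1} :=
    (Equiv.ofInjective g2 h2).symm.trans (Equiv.ofInjective g1 h1)
  refine ⟨e.extendSubtype, fun y => ?_⟩
  rw [Equiv.extendSubtype_apply_of_mem e (g2 y) ⟨y, rfl⟩]
  have : (Equiv.ofInjective g2 h2).symm ⟨g2 y, ⟨y, rfl⟩⟩ = y := by
    rw [Equiv.symm_apply_eq]; rfl
  simp only [e, Equiv.trans_apply]
  rw [this]; rfl

lemma minor_type {V : Type} (G : SimpleGraph V) {ι : Type} [Fintype ι] (B : ι → Set V)
    (h1 : ∀ i, (G.induce (B i)).Connected) (h2 : ∀ i j, i ≠ j → Disjoint (B i) (B j))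
    (h3 : ∀ i j, i ≠ j → ∃ u ∈ B i, ∃ v ∈ B j, G.Adj u v) :
    HasCliqueMinor G (Fintype.card ι) := by
  let e := (Fintype.equivFin ι).symm
  exact ⟨fun i => B (e i), fun i => h1 _, fun i j hij => h2 _ _ (fun h => hij (e.injective h)),
    fun i j hij => h3 _ _ (fun h => hij (e.injective h))⟩

lemma minor_mono {V : Type} (G : SimpleGraph V) {m n : ℕ} (hmn : m ≤ n)
    (h : HasCliqueMinor G n) : HasCliqueMinor G m := by
  obtain ⟨B, h1, h2, h3⟩ := h
  refine ⟨fun i => B (Fin.castLE hmn i), fun i => h1 _, fun i j hij => h2 _ _ ?_,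
    fun i j hij => h3 _ _ ?_⟩ <;>
  exact fun h => hij (Fin.castLE_injective _ h)

/-- component of `v` in `G[X]` -/
def comp {V : Type} (G : SimpleGraph V) (X : Set V) (v : V) : Set V :=
  ⋃₀ {T | T ⊆ X ∧ v ∈ T ∧ (G.induce T).Connected}

section
variable {V : Type} (G : SimpleGraph V) (X : Set V)

lemma comp_sub (v : V) : comp G X v ⊆ X := by
  rintro x ⟨T, ⟨hT, -, -⟩, hx⟩
  exact hT hx

lemma self_comp {v : V} (hv : v ∈ X) : v ∈ comp G X v :=
  ⟨{v}, ⟨by simpa using hv, rfl, conn_singleton G v⟩, rfl⟩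

lemma comp_conn {v : V} (hv : v ∈ X) : (G.induce (comp G X v)).Connected := by
  apply SimpleGraph.induce_sUnion_connected_of_pairwise_not_disjoint
  · exact ⟨{v}, by simpa using hv, rfl, conn_singleton G v⟩
  · rintro s t ⟨-, hs, -⟩ ⟨-, ht, -⟩
    exact ⟨v, hs, ht⟩
  · rintro s ⟨-, -, hs⟩
    exact hs

lemma comp_closed {v u w : V} (hu : u ∈ comp G X v) (hw : w ∈ X) (h : G.Adj u w) :
    w ∈ comp G X v := by
  obtain ⟨T, ⟨hT, hv, hc⟩, hu⟩ := hu
  refine ⟨T ∪ {u, w}, ⟨?_, Or.inl hv, ?_⟩, by simp⟩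
  · rintro x (hx | hx)
    · exact hT hx
    · rcases hx with hx | hx
      · rw [hx]; exact hT hu
      · rw [Set.mem_singleton_iff] at hx; rw [hx]; exact hw
  · exact SimpleGraph.induce_union_connected hc.preconnected
      (SimpleGraph.induce_pair_connected_of_adj h).preconnected ⟨u, hu, by simp⟩

lemma comp_le {v u : V} (hv : v ∈ X) (hu : u ∈ comp G X v) : comp G X u ⊆ comp G X v := by
  rintro x ⟨T, ⟨hT, huT, hc⟩, hx⟩
  refine ⟨T ∪ comp G X v, ⟨Set.union_subset hT (comp_sub G X v), Or.inr (self_comp G X hv), ?_⟩,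
    Or.inl hx⟩
  exact SimpleGraph.induce_union_connected hc.preconnected (comp_conn G X hv).preconnected
    ⟨u, huT, hu⟩

lemma comp_eq {v u : V} (hv : v ∈ X) (hu : u ∈ comp G X v) : comp G X u = comp G X v := by
  have huX := comp_sub G X v hu
  refine Set.Subset.antisymm (comp_le G X hv hu) (comp_le G X huX ?_)
  exact ⟨comp G X v, ⟨comp_sub G X v, hu, comp_conn G X hv⟩, self_comp G X hv⟩

lemma comp_adj {u w : V} (hu : u ∈ X) (hw : w ∈ X) (h : G.Adj u w) :
    comp G X w = comp G X u :=
  comp_eq G X hu (comp_closed G X (self_comp G X hu) hw h)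
end

lemma conn_closed {V : Type} (G : SimpleGraph V) (D F : Set V) (hD : (G.induce D).Connected)
    (hF : ∀ a ∈ F, ∀ b ∈ D, G.Adj a b → b ∈ F) {a : V} (ha : a ∈ F) (haD : a ∈ D) : D ⊆ F := by
  intro b hb
  obtain ⟨p⟩ := hD.preconnected ⟨a, haD⟩ ⟨b, hb⟩
  have key : ∀ {x y : D}, (G.induce D).Walk x y → x.1 ∈ F → y.1 ∈ F := by
    intro x y p
    induction p with
    | nil => exact id
    | cons h p ih =>
      intro hx
      exact ih (hF _ hx _ (Subtype.property _) (by simpa using h))
  exact key p ha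

theorem tight {V : Type} (G : SimpleGraph V) (S : Set V) (K : Finset V)
    (hK : ∀ y ∈ K, ∀ z ∈ K, y ≠ z → G.Adj y z) (h : ℕ) (hh : 2 ≤ h) (I : V → Fin h)
    (hI : ∀ u ∈ S, u ∉ K → ∀ v ∈ S, v ∉ K → G.Adj u v → I u ≠ I v)
    (hn : ¬ ∃ f : V → Fin (K.card + (h - 1)), ∀ u ∈ S, ∀ v ∈ S, G.Adj u v → f u ≠ f v) :
    HasCliqueMinor G (K.card + 2) := by
  classical
  by_contra hno
  apply hn
  let X : Set V := {v | v ∈ S ∧ v ∉ K}
  let last : Fin h := ⟨h - 1, by omega⟩
  let zero : Fin h := ⟨0, by omega⟩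
  have hzl : zero ≠ last := by
    intro hz
    have := congrArg Fin.val hz
    simp only [zero, last] at this
    omega
  let X' : Set V := {v | v ∈ X ∧ I v ≠ last}
  let Bad : Set V → V → Prop := fun D y => y ∈ K ∧ ∀ x ∈ D, ¬ G.Adj y x
  let Good : Set V → Prop := fun D => ∀ y ∈ K, ∃ x ∈ D, G.Adj y x
  have hbad : ∀ D, ¬ Good D → ∃ y, Bad D y := by
    intro D hD
    simp only [Good] at hD
    push Not at hD
    exact hD
  -- two good adjacent sets give the minor
  have hEF : ∀ v ∈ X, ∀ u, u ∈ X' → u ∈ comp G X v → Good (comp G X' u) →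
      ∀ f ∈ comp G X v \ comp G X' u, ¬ Good (comp G (comp G X v \ comp G X' u) f) := by
    intro v hv u hu huD hE f hf hF
    have hED : comp G X' u ⊆ comp G X v := by
      rw [← comp_eq G X hv huD]
      rintro x ⟨T, ⟨hT, huT, hc⟩, hx⟩
      exact ⟨T, ⟨fun z hz => (hT hz).1, huT, hc⟩, hx⟩
    have hFX : comp G (comp G X v \ comp G X' u) f ⊆ comp G X v \ comp G X' u := comp_sub _ _ _
    have hadj : ∃ a ∈ comp G X' u, ∃ b ∈ comp G (comp G X v \ comp G X' u) f, G.Adj a b := by
      by_contra hna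
      push Not at hna
      have hsub := conn_closed G (comp G X v) (comp G (comp G X v \ comp G X' u) f)
        (comp_conn G X hv) (by
          intro a ha b hb hab
          by_cases hbE : b ∈ comp G X' u
          · exact absurd hab.symm (hna b hbE a ha)
          · exact comp_closed G _ ha ⟨hb, hbE⟩ hab) (self_comp G _ hf) hf.1
      exact (hFX (hsub huD)).2 (self_comp G X' hu)
    apply hno
    have hcard : Fintype.card (Option (Option {y // y ∈ K})) = K.card + 2 := by
      simp
    rw [← hcard]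
    have hEK : ∀ x ∈ comp G X' u, x ∉ K := fun x hx => (comp_sub G X' u hx).1.2
    have hFK : ∀ x ∈ comp G (comp G X v \ comp G X' u) f, x ∉ K :=
      fun x hx => (comp_sub G X v (hFX hx).1).2
    have hEFd : Disjoint (comp G X' u) (comp G (comp G X v \ comp G X' u) f) := by
      rw [Set.disjoint_left]
      intro x hx hx'
      exact (hFX hx').2 hx
    refine minor_type G (ι := Option (Option {y // y ∈ K}))
      (fun i => match i with
        | none => comp G X' u
        | some none => comp G (comp G X v \ comp G X' u) f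
        | some (some y) => {y.1}) ?_ ?_ ?_
    · rintro (_ | _ | y)
      · exact comp_conn G X' hu
      · exact comp_conn G _ hf
      · exact conn_singleton G y.1
    · rintro (_ | _ | y) (_ | _ | z) hij
      · exact absurd rfl hij
      · exact hEFd
      · exact Set.disjoint_singleton_right.2 (fun hz => hEK _ hz z.2)
      · exact hEFd.symm
      · exact absurd rfl hij
      · exact Set.disjoint_singleton_right.2 (fun hz => hFK _ hz z.2)
      · exact Set.disjoint_singleton_left.2 (fun hz => hEK _ hz y.2)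
      · exact Set.disjoint_singleton_left.2 (fun hz => hFK _ hz y.2)
      · refine Set.disjoint_singleton.2 (fun hyz => hij ?_)
        rw [Subtype.ext hyz]
    · rintro (_ | _ | y) (_ | _ | z) hij
      · exact absurd rfl hij
      · exact hadj
      · obtain ⟨x, hx, hxz⟩ := hE z.1 z.2
        exact ⟨x, hx, z.1, rfl, hxz.symm⟩
      · obtain ⟨a, ha, b, hb, hab⟩ := hadj
        exact ⟨b, hb, a, ha, hab.symm⟩
      · exact absurd rfl hij
      · obtain ⟨x, hx, hxz⟩ := hF z.1 z.2
        exact ⟨x, hx, z.1, rfl, hxz.symm⟩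
      · obtain ⟨x, hx, hxy⟩ := hE y.1 y.2
        exact ⟨y.1, rfl, x, hx, hxy⟩
      · obtain ⟨x, hx, hxy⟩ := hF y.1 y.2
        exact ⟨y.1, rfl, x, hx, hxy⟩
      · refine ⟨y.1, rfl, z.1, rfl, hK _ y.2 _ z.2 ?_⟩
        intro hyz
        exact hij (by rw [Subtype.ext hyz])
  -- the choice of a good component of `G[X']`
  let HasE : Set V → Prop := fun D => ∃ u, u ∈ X' ∧ u ∈ D ∧ Good (comp G X' u)
  let pickE : Set V → Set V := fun D => if hE : HasE D then comp G X' hE.choose else ∅
  let pickY : Set V → V → {y // y ∈ K} ⊕ Fin (h - 1) := fun D v =>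
    if hy : ∃ y, Bad D y then Sum.inl ⟨hy.choose, hy.choose_spec.1⟩ else
      Sum.inr ⟨0, by omega⟩
  let keep : V → {y // y ∈ K} ⊕ Fin (h - 1) := fun v =>
    Sum.inr ⟨min (I v).1 (h - 2), by omega⟩
  let col : V → {y // y ∈ K} ⊕ Fin (h - 1) := fun v =>
    if hv : v ∈ K then Sum.inl ⟨v, hv⟩ else
    if Good (comp G X v) then
      if HasE (comp G X v) then
        if v ∈ pickE (comp G X v) then keep v
        else if I v = last then pickY (comp G (comp G X v \ pickE (comp G X v)) v) v else keep v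
      else
        if I v = last then Sum.inr ⟨0, by omega⟩
        else if I v = zero then pickY (comp G X' v) v else keep v
    else
      if I v = last then pickY (comp G X v) v else keep v
  have hpickY : ∀ D v, ¬ Good D → ∃ y : {y // y ∈ K}, pickY D v = Sum.inl y ∧
      ∀ x ∈ D, ¬ G.Adj y.1 x := by
    intro D v hD
    have hy : ∃ y, Bad D y := hbad D hD
    exact ⟨⟨hy.choose, hy.choose_spec.1⟩, by simp only [pickY, dif_pos hy], hy.choose_spec.2⟩
  have hpickE : ∀ D, HasE D → ∃ u, u ∈ X' ∧ u ∈ D ∧ Good (comp G X' u) ∧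
      pickE D = comp G X' u := by
    intro D hE
    exact ⟨hE.choose, hE.choose_spec.1, hE.choose_spec.2.1, hE.choose_spec.2.2, by
      simp only [pickE, dif_pos hE]⟩
  -- cases A
  have hA1 : ∀ v, v ∈ X → ((Good (comp G X v) ∧ HasE (comp G X v)) ∨ ¬ Good (comp G X v)) →
      I v ≠ last → col v = keep v := by
    intro v hv hc hl
    simp only [col, dif_neg hv.2]
    rcases hc with ⟨h1, h2⟩ | h1
    · rw [if_pos h1, if_pos h2]
      split_ifs
      · rfl
      · rfl
    · rw [if_neg h1, if_neg hl]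
  have hA2 : ∀ v, v ∈ X → ((Good (comp G X v) ∧ HasE (comp G X v)) ∨ ¬ Good (comp G X v)) →
      I v = last → ∃ y : {y // y ∈ K}, col v = Sum.inl y ∧ ¬ G.Adj y.1 v := by
    intro v hv hc hl
    simp only [col, dif_neg hv.2]
    rcases hc with ⟨h1, h2⟩ | h1
    · rw [if_pos h1, if_pos h2]
      obtain ⟨u, hu, huD, huG, hue⟩ := hpickE _ h2
      have hvE : v ∉ pickE (comp G X v) := by
        rw [hue]
        intro h
        exact (comp_sub G X' u h).2 hl
      rw [if_neg hvE, if_pos hl]
      have hvf : v ∈ comp G X v \ pickE (comp G X v) := ⟨self_comp G X hv, hvE⟩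
      have hng : ¬ Good (comp G (comp G X v \ pickE (comp G X v)) v) := by
        rw [hue] at hvf ⊢
        exact hEF v hv u hu huD huG v hvf
      obtain ⟨y, hy1, hy2⟩ := hpickY _ v hng
      exact ⟨y, hy1, hy2 v (self_comp G _ hvf)⟩
    · rw [if_neg h1, if_pos hl]
      obtain ⟨y, hy1, hy2⟩ := hpickY _ v h1
      exact ⟨y, hy1, hy2 v (self_comp G X hv)⟩
  -- case B
  have hB1 : ∀ v, v ∈ X → Good (comp G X v) → ¬ HasE (comp G X v) → I v = last →
      col v = Sum.inr ⟨0, by omega⟩ := by
    intro v hv h1 h2 hl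
    simp only [col, dif_neg hv.2]
    rw [if_pos h1, if_neg h2, if_pos hl]
  have hB2 : ∀ v, v ∈ X → Good (comp G X v) → ¬ HasE (comp G X v) → I v = zero →
      ∃ y : {y // y ∈ K}, col v = Sum.inl y ∧ ¬ G.Adj y.1 v := by
    intro v hv h1 h2 hl
    have hnl : I v ≠ last := by rw [hl]; exact hzl
    have hvX' : v ∈ X' := ⟨hv, hnl⟩
    simp only [col, dif_neg hv.2]
    rw [if_pos h1, if_neg h2, if_neg hnl, if_pos hl]
    have hng : ¬ Good (comp G X' v) := fun hg => h2 ⟨v, hvX', self_comp G X hv, hg⟩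
    obtain ⟨y, hy1, hy2⟩ := hpickY _ v hng
    exact ⟨y, hy1, hy2 v (self_comp G X' hvX')⟩
  have hB3 : ∀ v, v ∈ X → Good (comp G X v) → ¬ HasE (comp G X v) → I v ≠ last → I v ≠ zero →
      col v = keep v := by
    intro v hv h1 h2 hl hz
    simp only [col, dif_neg hv.2]
    rw [if_pos h1, if_neg h2, if_neg hl, if_neg hz]
  have hkeep : ∀ u v, I u ≠ last → I v ≠ last → I u ≠ I v → keep u ≠ keep v := by
    intro u v hu hv huv hk
    simp only [keep, Sum.inr.injEq, Fin.mk.injEq] at hk
    have h1 : (I u).1 ≠ h - 1 := fun h => hu (Fin.ext h)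
    have h2 : (I v).1 ≠ h - 1 := fun h => hv (Fin.ext h)
    have h3 : (I u).1 ≠ (I v).1 := fun h => huv (Fin.ext h)
    have h4 := (I u).2
    have h5 := (I v).2
    omega
  have hkeep0 : ∀ v, I v ≠ zero → I v ≠ last → keep v ≠ Sum.inr ⟨0, by omega⟩ := by
    intro v hz hl hk
    simp only [keep, Sum.inr.injEq, Fin.mk.injEq] at hk
    have h1 : (I v).1 ≠ h - 1 := fun h => hl (Fin.ext h)
    have h2 : (I v).1 ≠ 0 := fun h => hz (Fin.ext h)
    have h5 := (I v).2
    omega
  have hKX : ∀ y ∈ K, ∀ v ∈ X, G.Adj y v → col y ≠ col v := by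
    intro y hy v hv hyv
    have hcy : col y = Sum.inl ⟨y, hy⟩ := by simp only [col, dif_pos hy]
    rw [hcy]
    have hfin : (∃ z : {y // y ∈ K}, col v = Sum.inl z ∧ ¬ G.Adj z.1 v) →
        Sum.inl ⟨y, hy⟩ ≠ col v := by
      rintro ⟨z, hz, hzv⟩ he
      rw [hz] at he
      have := congrArg Subtype.val (Sum.inl.inj he)
      simp only at this
      rw [this] at hyv
      exact hzv hyv
    by_cases h1 : Good (comp G X v)
    · by_cases h2 : HasE (comp G X v)
      · by_cases h3 : I v = last
        · exact hfin (hA2 v hv (Or.inl ⟨h1, h2⟩) h3)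
        · rw [hA1 v hv (Or.inl ⟨h1, h2⟩) h3]; exact Sum.inl_ne_inr
      · by_cases h3 : I v = last
        · rw [hB1 v hv h1 h2 h3]; exact Sum.inl_ne_inr
        · by_cases h4 : I v = zero
          · exact hfin (hB2 v hv h1 h2 h4)
          · rw [hB3 v hv h1 h2 h3 h4]; exact Sum.inl_ne_inr
    · by_cases h3 : I v = last
      · exact hfin (hA2 v hv (Or.inr h1) h3)
      · rw [hA1 v hv (Or.inr h1) h3]; exact Sum.inl_ne_inr
  have hXX : ∀ u ∈ X, ∀ v ∈ X, G.Adj u v → col u ≠ col v := by
    intro u hu v hv huv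
    have hIuv := hI u hu.1 hu.2 v hv.1 hv.2 huv
    have hD := comp_adj G X hu hv huv
    by_cases hc : (Good (comp G X u) ∧ HasE (comp G X u)) ∨ ¬ Good (comp G X u)
    · have hc' : (Good (comp G X v) ∧ HasE (comp G X v)) ∨ ¬ Good (comp G X v) := by
        rw [hD]; exact hc
      by_cases h1 : I u = last <;> by_cases h2 : I v = last
      · exact absurd (h1.trans h2.symm) hIuv
      · obtain ⟨y, hy, -⟩ := hA2 u hu hc h1
        rw [hy, hA1 v hv hc' h2]; exact Sum.inl_ne_inr
      · obtain ⟨y, hy, -⟩ := hA2 v hv hc' h2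
        rw [hy, hA1 u hu hc h1]; exact Sum.inr_ne_inl
      · rw [hA1 u hu hc h1, hA1 v hv hc' h2]
        exact hkeep u v h1 h2 hIuv
    · have hc2 : Good (comp G X u) ∧ ¬ HasE (comp G X u) := by
        by_contra h
        apply hc
        by_cases hg : Good (comp G X u)
        · left
          refine ⟨hg, ?_⟩
          by_contra hE
          exact h ⟨hg, hE⟩
        · exact Or.inr hg
      obtain ⟨g1, g2⟩ := hc2
      have g1' : Good (comp G X v) := by rw [hD]; exact g1
      have g2' : ¬ HasE (comp G X v) := by rw [hD]; exact g2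
      by_cases h1 : I u = last
      · have h2 : I v ≠ last := fun h => hIuv (h1.trans h.symm)
        rw [hB1 u hu g1 g2 h1]
        by_cases h3 : I v = zero
        · obtain ⟨y, hy, -⟩ := hB2 v hv g1' g2' h3
          rw [hy]; exact Sum.inr_ne_inl
        · rw [hB3 v hv g1' g2' h2 h3]
          exact (hkeep0 v h3 h2).symm
      · by_cases h2 : I v = last
        · rw [hB1 v hv g1' g2' h2]
          by_cases h3 : I u = zero
          · obtain ⟨y, hy, -⟩ := hB2 u hu g1 g2 h3
            rw [hy]; exact Sum.inl_ne_inr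
          · rw [hB3 u hu g1 g2 h1 h3]
            exact hkeep0 u h3 h1
        · by_cases h3 : I u = zero
          · have h4 : I v ≠ zero := fun h => hIuv (h3.trans h.symm)
            obtain ⟨y, hy, -⟩ := hB2 u hu g1 g2 h3
            rw [hy, hB3 v hv g1' g2' h2 h4]; exact Sum.inl_ne_inr
          · by_cases h4 : I v = zero
            · obtain ⟨y, hy, -⟩ := hB2 v hv g1' g2' h4
              rw [hy, hB3 u hu g1 g2 h1 h3]; exact Sum.inr_ne_inl
            · rw [hB3 u hu g1 g2 h1 h3, hB3 v hv g1' g2' h2 h4]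
              exact hkeep u v h1 h2 hIuv
  have hcard : Fintype.card ({y // y ∈ K} ⊕ Fin (h - 1)) = K.card + (h - 1) := by simp
  let e := Fintype.equivFinOfCardEq hcard
  refine ⟨fun v => e (col v), ?_⟩
  intro u hu v hv huv he
  have he' := e.injective he
  by_cases h1 : u ∈ K <;> by_cases h2 : v ∈ K
  · simp only [col, dif_pos h1, dif_pos h2] at he'
    have := congrArg Subtype.val (Sum.inl.inj he')
    exact huv.ne this
  · exact hKX u h1 v ⟨hv, h2⟩ huv he'
  · exact hKX v h2 u ⟨hu, h1⟩ huv.symm he'.symm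
  · exact hXX u ⟨hu, h1⟩ v ⟨hv, h2⟩ huv he'

/-- A minimal set `S` that is not `q`-colourable: a clique of `G[S]` with at most `q` vertices and
a component of the rest form a clique minor. -/
theorem crit {V : Type} (G : SimpleGraph V) (S : Set V) (q : ℕ) (hq1 : 1 ≤ q)
    (hScol : ¬ ∃ f : V → Fin q, ∀ u ∈ S, ∀ v ∈ S, G.Adj u v → f u ≠ f v)
    (hmin : ∀ T : Set V, T ⊂ S → ∃ f : V → Fin q, ∀ u ∈ T, ∀ v ∈ T, G.Adj u v → f u ≠ f v)
    (K : Finset V) (hKS : ∀ y ∈ K, y ∈ S) (hKadj : ∀ y ∈ K, ∀ z ∈ K, y ≠ z → G.Adj y z)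
    (hKq : K.card ≤ q) : HasCliqueMinor G (K.card + 1) := by
  classical
  let e : Fin K.card ≃ K := (K.equivFinOfCardEq rfl).symm
  -- some vertex of `S` is not in `K`
  have hR : ∃ r, r ∈ S ∧ r ∉ K := by
    by_contra hno
    push Not at hno
    apply hScol
    refine ⟨fun v => if h : v ∈ K then Fin.castLE hKq (e.symm ⟨v, h⟩) else ⟨0, hq1⟩, ?_⟩
    intro u hu v hv huv
    simp only [hno u hu, hno v hv, dif_pos]
    intro h
    have h1 := Fin.castLE_injective _ h
    have h2 := e.symm.injective h1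
    have h3 : u = v := congrArg Subtype.val h2
    exact huv.ne h3
  obtain ⟨r, hrS, hrK⟩ := hR
  let X : Set V := {v | v ∈ S ∧ v ∉ K}
  have hr : r ∈ X := ⟨hrS, hrK⟩
  have hCX : comp G X r ⊆ X := comp_sub G X r
  have hdom : ∀ y ∈ K, ∃ x ∈ comp G X r, G.Adj y x := by
    intro y hy
    by_contra hno
    push Not at hno
    have hyC : y ∉ comp G X r := fun h => (hCX h).2 hy
    have hsub1 : S \ comp G X r ⊂ S := by
      refine ⟨Set.sdiff_subset, fun h => ?_⟩
      exact (h hrS).2 (self_comp G X hr)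
    have hsub2 : S \ {y} ⊂ S := by
      refine ⟨Set.sdiff_subset, fun h => ?_⟩
      exact (h (hKS y hy)).2 rfl
    obtain ⟨f1, hf1⟩ := hmin _ hsub1
    obtain ⟨f2, hf2⟩ := hmin _ hsub2
    obtain ⟨σ, hσ⟩ := exists_perm (ι := {z : V // z ∈ K ∧ z ≠ y}) (fun z => f1 z.1)
      (fun z => f2 z.1) (by
        intro a b hab
        by_contra hne
        have hne' : a.1 ≠ b.1 := fun h => hne (Subtype.ext h)
        exact hf1 a.1 ⟨hKS _ a.2.1, fun h => (hCX h).2 a.2.1⟩ b.1
          ⟨hKS _ b.2.1, fun h => (hCX h).2 b.2.1⟩ (hKadj _ a.2.1 _ b.2.1 hne') hab) (by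
        intro a b hab
        by_contra hne
        have hne' : a.1 ≠ b.1 := fun h => hne (Subtype.ext h)
        exact hf2 a.1 ⟨hKS _ a.2.1, a.2.2⟩ b.1
          ⟨hKS _ b.2.1, b.2.2⟩ (hKadj _ a.2.1 _ b.2.1 hne') hab)
    apply hScol
    have hcross : ∀ u ∈ comp G X r, ∀ v ∈ S, v ∉ comp G X r → G.Adj u v → σ (f2 u) ≠ f1 v := by
      intro u hu v hv hvC huv
      have hvK : v ∈ K := by
        by_contra h
        exact hvC (comp_closed G X hu ⟨hv, h⟩ huv)
      have hvy : v ≠ y := by
        intro h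
        subst h
        exact hno u hu huv.symm
      have h1 := hσ ⟨v, hvK, hvy⟩
      simp only at h1
      rw [← h1]
      intro h
      have h2 := σ.injective h
      refine hf2 u ⟨(hCX hu).1, ?_⟩ v ⟨hv, hvy⟩ huv h2
      intro h3
      rw [Set.mem_singleton_iff] at h3
      rw [h3] at hu
      exact hyC hu
    refine ⟨fun v => if v ∈ comp G X r then σ (f2 v) else f1 v, ?_⟩
    intro u hu v hv huv
    by_cases huC : u ∈ comp G X r <;> by_cases hvC : v ∈ comp G X r
    · simp only [huC, hvC, if_true]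
      intro h
      have h2 := σ.injective h
      refine hf2 u ⟨hu, ?_⟩ v ⟨hv, ?_⟩ huv h2
      · intro h3; rw [Set.mem_singleton_iff] at h3; rw [h3] at huC; exact hyC huC
      · intro h3; rw [Set.mem_singleton_iff] at h3; rw [h3] at hvC; exact hyC hvC
    · simp only [huC, hvC, if_true, if_false]
      exact hcross u huC v hv hvC huv
    · simp only [huC, hvC, if_true, if_false]
      exact (hcross v hvC u hu huC huv.symm).symm
    · simp only [huC, hvC, if_false]
      exact hf1 u ⟨hu, huC⟩ v ⟨hv, hvC⟩ huv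
  have hcard : Fintype.card (Option {y // y ∈ K}) = K.card + 1 := by simp
  rw [← hcard]
  refine minor_type G (ι := Option {y // y ∈ K})
    (fun i => match i with
      | none => comp G X r
      | some y => {y.1}) ?_ ?_ ?_
  · rintro (_ | y)
    · exact comp_conn G X hr
    · exact conn_singleton G y.1
  · rintro (_ | y) (_ | z) hij
    · exact absurd rfl hij
    · exact Set.disjoint_singleton_right.2 (fun hz => (hCX hz).2 z.2)
    · exact Set.disjoint_singleton_left.2 (fun hz => (hCX hz).2 y.2)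
    · refine Set.disjoint_singleton.2 (fun hyz => hij ?_)
      rw [Subtype.ext hyz]
  · rintro (_ | y) (_ | z) hij
    · exact absurd rfl hij
    · obtain ⟨x, hx, hxz⟩ := hdom z.1 z.2
      exact ⟨x, hx, z.1, rfl, hxz.symm⟩
    · obtain ⟨x, hx, hxy⟩ := hdom y.1 y.2
      exact ⟨y.1, rfl, x, hx, hxy⟩
    · refine ⟨y.1, rfl, z.1, rfl, hKadj _ y.2 _ z.2 ?_⟩
      intro hyz
      exact hij (by rw [Subtype.ext hyz])

/-- A minimal set that is not `q`-colourable. -/
lemma exists_min {V : Type} [Finite V] (G : SimpleGraph V) (q : ℕ) (hq1 : 1 ≤ q)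
    (hχ : ¬ G.Colorable q) : ∃ S : Set V,
      (¬ ∃ f : V → Fin q, ∀ u ∈ S, ∀ v ∈ S, G.Adj u v → f u ≠ f v) ∧
      (∀ T : Set V, T ⊂ S → ∃ f : V → Fin q, ∀ u ∈ T, ∀ v ∈ T, G.Adj u v → f u ≠ f v) := by
  let P : Set (Set V) := {S | ¬ ∃ f : V → Fin q, ∀ u ∈ S, ∀ v ∈ S, G.Adj u v → f u ≠ f v}
  have huniv : (Set.univ : Set V) ∈ P := by
    rintro ⟨f, hf⟩
    exact hχ ⟨SimpleGraph.Coloring.mk f (fun {u v} h => hf u trivial v trivial h)⟩
  obtain ⟨S, hS, hmin⟩ := WellFounded.has_min (wellFounded_lt : WellFounded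
    (fun a b : Set V => a < b)) P ⟨_, huniv⟩
  refine ⟨S, hS, fun T hT => ?_⟩
  by_contra h
  exact hmin T h hT

theorem key_pos {V : Type} [Finite V] (G : SimpleGraph V) (c m : ℕ) (hc : 1 ≤ c) (hm : 1 ≤ m)
    (hG : Gap G c) (hχ : ¬ G.Colorable (m + c - 1)) : HasCliqueMinor G (m + 1) := by
  classical
  obtain ⟨q, hq⟩ : ∃ q, q = m + c - 1 := ⟨_, rfl⟩
  have hq1 : 1 ≤ q := by omega
  rw [← hq] at hχ
  obtain ⟨S, hScol, hmin⟩ := exists_min G q hq1 hχ
  have hcl : ¬ (G.induce S).CliqueFree m := by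
    intro h
    have h' : (G.induce S).CliqueFree ((m - 1) + 1) := by
      rwa [Nat.sub_add_cancel hm]
    have h2 := hG S (m - 1) h'
    have e : m - 1 + c = q := by omega
    rw [e, colS_iff G S q hq1] at h2
    exact hScol h2
  obtain ⟨s, hs⟩ : ∃ s : Finset S, (G.induce S).IsNClique m s := by
    by_contra h
    push Not at h
    exact hcl (fun s hs => h s hs)
  let K : Finset V := s.map (Function.Embedding.subtype _)
  have hKS : ∀ y ∈ K, y ∈ S := by
    intro y hy
    simp only [K, Finset.mem_map, Function.Embedding.coe_subtype] at hy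
    obtain ⟨a, -, rfl⟩ := hy
    exact a.2
  have hKcard : K.card = m := by
    simp only [K, Finset.card_map]; exact hs.card_eq
  have hKadj : ∀ y ∈ K, ∀ z ∈ K, y ≠ z → G.Adj y z := by
    intro y hy z hz hyz
    simp only [K, Finset.mem_map, Function.Embedding.coe_subtype] at hy hz
    obtain ⟨a, ha, rfl⟩ := hy
    obtain ⟨b, hb, rfl⟩ := hz
    have := hs.isClique ha hb (fun h => hyz (by rw [h]))
    simpa using this
  have := crit G S q hq1 hScol hmin K hKS hKadj (by omega)
  rwa [hKcard] at this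

/-- For `m = 0` only a vertex is needed. -/
theorem key {V : Type} [Finite V] (G : SimpleGraph V) (c m : ℕ) (hc : 1 ≤ c)
    (hG : Gap G c) (hχ : ¬ G.Colorable (m + c - 1)) : HasCliqueMinor G (m + 1) := by
  rcases Nat.eq_zero_or_pos m with hm | hm
  · subst hm
    have hne : Nonempty V := by
      by_contra h
      rw [not_nonempty_iff] at h
      exact hχ ⟨SimpleGraph.Coloring.mk (fun v => (h.false v).elim) (fun {u} => (h.false u).elim)⟩
    obtain ⟨v⟩ := hne
    refine ⟨fun _ => {v}, fun _ => conn_singleton G v, ?_, ?_⟩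
    · intro i j hij; exact absurd (Fin.ext (by omega)) hij
    · intro i j hij; exact absurd (Fin.ext (by omega)) hij
  · exact key_pos G c m hc hm hG hχ

/-- Gaps add up if the vertex set is split into two parts. -/
lemma gap_split {V : Type} (G : SimpleGraph V) (X : Set V) (a b : ℕ)
    (hX : Gap (G.induce X) a) (hY : (G.induce Xᶜ).Colorable b) : Gap G (a + b) := by
  classical
  intro S k hS
  -- colour `S ∩ X`
  have h1 : ((G.induce X).induce {x : X | x.1 ∈ S}).Colorable (k + a) := by
    apply hX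
    intro s hs
    refine hS (s.map ⟨fun x => ⟨x.1.1, x.2⟩, ?_⟩) ?_
    · intro x y hxy
      have h : x.1.1 = y.1.1 := by simpa using hxy
      exact Subtype.ext (Subtype.ext h)
    · refine ⟨?_, by rw [Finset.card_map]; exact hs.card_eq⟩
      intro x hx y hy hxy
      simp only [Finset.coe_map, Set.mem_image, Finset.mem_coe] at hx hy
      obtain ⟨x', hx', rfl⟩ := hx
      obtain ⟨y', hy', rfl⟩ := hy
      have h2 : ((G.induce X).induce {x : X | x.1 ∈ S}).Adj x' y' :=
        hs.isClique hx' hy' (fun h => hxy (by rw [h]))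
      have h3 : G.Adj x'.1.1 y'.1.1 := by simpa using h2
      exact h3
  obtain ⟨C1⟩ := h1
  obtain ⟨C2⟩ := hY
  refine ⟨SimpleGraph.Coloring.mk (fun v : S => if h : v.1 ∈ X then
      Fin.cast (by omega) (Fin.castAdd b (C1 ⟨⟨v.1, h⟩, v.2⟩)) else
      Fin.cast (by omega) (Fin.natAdd (k + a) (C2 ⟨v.1, h⟩))) ?_⟩
  intro u v huv
  have huv' : G.Adj u.1 v.1 := by simpa using huv
  by_cases hu : u.1 ∈ X <;> by_cases hv : v.1 ∈ X
  · simp only [hu, hv, dif_pos]
    intro h
    have h1 := Fin.castAdd_injective _ _ (Fin.cast_injective _ h)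
    exact C1.valid (v := ⟨⟨u.1, hu⟩, u.2⟩) (w := ⟨⟨v.1, hv⟩, v.2⟩) (by simpa using huv') h1
  · simp only [hu, hv, dif_pos, dif_neg, not_false_eq_true]
    intro h
    have h1 := congrArg Fin.val h
    simp only [Fin.val_cast, Fin.val_castAdd, Fin.val_natAdd] at h1
    have := (C1 ⟨⟨u.1, hu⟩, u.2⟩).2
    omega
  · simp only [hu, hv, dif_pos, dif_neg, not_false_eq_true]
    intro h
    have h1 := congrArg Fin.val h
    simp only [Fin.val_cast, Fin.val_castAdd, Fin.val_natAdd] at h1
    have := (C1 ⟨⟨v.1, hv⟩, v.2⟩).2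
    omega
  · simp only [hu, hv, dif_neg, not_false_eq_true]
    intro h
    have h1 := Fin.natAdd_injective _ _ (Fin.cast_injective _ h)
    exact C2.valid (v := ⟨u.1, hu⟩) (w := ⟨v.1, hv⟩) (by simpa using huv') h1

lemma minor_of_clique {V : Type} (G : SimpleGraph V) (K : Finset V)
    (hK : ∀ y ∈ K, ∀ z ∈ K, y ≠ z → G.Adj y z) : HasCliqueMinor G K.card := by
  classical
  have hcard : Fintype.card {y // y ∈ K} = K.card := by simp
  rw [← hcard]
  refine minor_type G (ι := {y // y ∈ K}) (fun y => {y.1}) (fun y => conn_singleton G y.1) ?_ ?_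
  · intro y z hyz
    exact Set.disjoint_singleton.2 (fun h => hyz (Subtype.ext h))
  · intro y z hyz
    exact ⟨y.1, rfl, z.1, rfl, hK _ y.2 _ z.2 (fun h => hyz (Subtype.ext h))⟩

lemma zero_minor {V : Type} (G : SimpleGraph V) : HasCliqueMinor G 0 :=
  ⟨Fin.elim0, fun i => i.elim0, fun i => i.elim0, fun i => i.elim0⟩

lemma one_minor {V : Type} (G : SimpleGraph V) (v : V) : HasCliqueMinor G 1 := by
  refine ⟨fun _ => {v}, fun _ => conn_singleton G v, ?_, ?_⟩
  · intro i j hij; exact absurd (Fin.ext (by omega)) hij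
  · intro i j hij; exact absurd (Fin.ext (by omega)) hij

/-- A clique and an `h`-colourable rest, `h ≥ 2`: `K_{χ - h + 2}` is a minor. -/
theorem clique_plus {V : Type} [Finite V] (G : SimpleGraph V) (K : Set V) (hK : G.IsClique K)
    (h : ℕ) (hh : 2 ≤ h) (hcol : (G.induce Kᶜ).Colorable h) (q : ℕ) (hq : ¬ G.Colorable q) :
    HasCliqueMinor G (q + 3 - h) := by
  classical
  rcases Nat.eq_zero_or_pos q with h0 | hq1
  · subst h0
    have hne : Nonempty V := by
      by_contra h
      rw [not_nonempty_iff] at h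
      exact hq ⟨SimpleGraph.Coloring.mk (fun v => (h.false v).elim) (fun {u} => (h.false u).elim)⟩
    obtain ⟨v⟩ := hne
    exact minor_mono G (by omega) (one_minor G v)
  obtain ⟨I, hI⟩ := (colS_iff G _ h (by omega)).1 hcol
  obtain ⟨S, hScol, hmin⟩ := exists_min G q hq1 hq
  let K' : Finset V := (Set.toFinite (K ∩ S)).toFinset
  have hK'mem : ∀ y, y ∈ K' ↔ y ∈ K ∧ y ∈ S := by
    intro y; simp [K']
  have hKS : ∀ y ∈ K', y ∈ S := fun y hy => ((hK'mem y).1 hy).2
  have hKadj : ∀ y ∈ K', ∀ z ∈ K', y ≠ z → G.Adj y z := fun y hy z hz hyz =>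
    hK ((hK'mem y).1 hy).1 ((hK'mem z).1 hz).1 hyz
  have hI' : ∀ u ∈ S, u ∉ K' → ∀ v ∈ S, v ∉ K' → G.Adj u v → I u ≠ I v := by
    intro u hu huK v hv hvK huv
    refine hI u (fun h => huK ((hK'mem u).2 ⟨h, hu⟩)) v (fun h => hvK ((hK'mem v).2 ⟨h, hv⟩)) huv
  -- `G[S]` is `(|K'| + h)`-colourable
  have hlow : q < K'.card + h := by
    by_contra hle
    push Not at hle
    apply hScol
    let e := (K'.equivFinOfCardEq rfl)
    refine ⟨fun v => if hv : v ∈ K' then Fin.castLE hle (Fin.castAdd h (e ⟨v, hv⟩)) else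
      Fin.castLE hle (Fin.natAdd K'.card (I v)), ?_⟩
    intro u hu v hv huv
    by_cases h1 : u ∈ K' <;> by_cases h2 : v ∈ K'
    · simp only [h1, h2, dif_pos]
      intro h3
      have h4 := Fin.castAdd_injective _ _ (Fin.castLE_injective _ h3)
      exact huv.ne (congrArg Subtype.val (e.injective h4))
    · simp only [h1, h2, dif_pos, dif_neg, not_false_eq_true]
      intro h3
      have h4 := congrArg Fin.val (Fin.castLE_injective _ h3)
      simp only [Fin.val_castAdd, Fin.val_natAdd] at h4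
      have := (e ⟨u, h1⟩).2
      omega
    · simp only [h1, h2, dif_pos, dif_neg, not_false_eq_true]
      intro h3
      have h4 := congrArg Fin.val (Fin.castLE_injective _ h3)
      simp only [Fin.val_castAdd, Fin.val_natAdd] at h4
      have := (e ⟨v, h2⟩).2
      omega
    · simp only [h1, h2, dif_neg, not_false_eq_true]
      intro h3
      have h4 := Fin.natAdd_injective _ _ (Fin.castLE_injective _ h3)
      exact hI' u hu h1 v hv h2 huv h4
  rcases Nat.lt_or_ge q K'.card with h1 | h1
  · exact minor_mono G (by omega) (minor_of_clique G K' hKadj)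
  · rcases Nat.lt_or_ge q (K'.card + (h - 1)) with h2 | h2
    · exact minor_mono G (by omega) (crit G S q hq1 hScol hmin K' hKS hKadj h1)
    · have h3 : q = K'.card + (h - 1) := by omega
      have := tight G S K' hKadj h hh I hI' (by rw [← h3]; exact hScol)
      exact minor_mono G (by omega) this

/-- (1) If the vertex set of a finite graph `G` is the union of a clique and a set that induces a
graph with chromatic number at most `h`, `h ≥ 2`, then `K_{χ(G) - h + 2}` is a minor of `G`. For
`h = 2` this is Hadwiger's conjecture and for `h = 3` it is Q1: see (2) and (3).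
(4) If all induced subgraphs of a finite graph `G` satisfy `χ ≤ ω + c`, `c ≥ 1`, then
`K_{χ(G) - c + 1}` is a minor of `G`. (5) In particular Q1 holds if the vertex set is the union of a
set inducing a perfect graph and a set inducing a bipartite graph, and (6) Hadwiger's conjecture
holds if it is the union of a set inducing a perfect graph and an independent set. -/
theorem result :
    (∀ (V : Type) [Finite V] (G : SimpleGraph V) (K : Set V), G.IsClique K → ∀ h : ℕ, 2 ≤ h →
      (G.induce Kᶜ).Colorable h → ∀ q : ℕ, ¬ G.Colorable q → HasCliqueMinor G (q + 3 - h)) ∧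
    (∀ (V : Type) [Finite V] (G : SimpleGraph V) (K : Set V), G.IsClique K →
      (G.induce Kᶜ).Colorable 2 → ∀ k : ℕ, ¬ G.Colorable k → HasCliqueMinor G (k + 1)) ∧
    (∀ (V : Type) [Finite V] (G : SimpleGraph V) (K : Set V), G.IsClique K →
      (G.induce Kᶜ).Colorable 3 → ∀ k : ℕ, ¬ G.Colorable k → HasCliqueMinor G k) ∧
    (∀ (V : Type) [Finite V] (G : SimpleGraph V) (c : ℕ), 1 ≤ c → Gap G c →
      ∀ m : ℕ, ¬ G.Colorable (m + c - 1) → HasCliqueMinor G (m + 1)) ∧
    (∀ (V : Type) [Finite V] (G : SimpleGraph V) (X : Set V), Perfect (G.induce X) →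
      (G.induce Xᶜ).Colorable 2 → ∀ k : ℕ, ¬ G.Colorable k → HasCliqueMinor G k) ∧
    (∀ (V : Type) [Finite V] (G : SimpleGraph V) (X : Set V), Perfect (G.induce X) →
      (∀ u ∉ X, ∀ v ∉ X, ¬ G.Adj u v) → ∀ k : ℕ, ¬ G.Colorable k → HasCliqueMinor G (k + 1)) := by
  refine ⟨fun V _ G K hK h hh hcol q hq => clique_plus G K hK h hh hcol q hq,
    fun V _ G K hK hcol k hk => clique_plus G K hK 2 le_rfl hcol k hk,
    fun V _ G K hK hcol k hk => clique_plus G K hK 3 (by norm_num) hcol k hk,
    fun V _ G c hc hG m hm => key G c m hc hG hm, ?_, ?_⟩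
  · intro V _ G X hX hY k hk
    have hG := gap_split G X 0 2 hX hY
    rcases Nat.eq_zero_or_pos k with h0 | h0
    · subst h0
      exact ⟨Fin.elim0, fun i => i.elim0, fun i => i.elim0, fun i => i.elim0⟩
    · obtain ⟨m, rfl⟩ : ∃ m, k = m + 1 := ⟨k - 1, by omega⟩
      exact key G (0 + 2) m (by omega) hG (by
        have : m + (0 + 2) - 1 = m + 1 := by omega
        rw [this]; exact hk)
  · intro V _ G X hX hY k hk
    have hY' : (G.induce Xᶜ).Colorable 1 := by
      refine ⟨SimpleGraph.Coloring.mk (fun _ => 0) ?_⟩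
      intro u v huv
      exact absurd (by simpa using huv) (hY u.1 u.2 v.1 v.2)
    have hG := gap_split G X 0 1 hX hY'
    exact key G (0 + 1) k (by omega) hG (by
      have : k + (0 + 1) - 1 = k := by omega
      rw [this]; exact hk)

end Pool.Agent.Results.MP_b47bfb_co.CliquePlusColourable
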