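import Pool.Agent.R3.C4H.Fin
import Pool.Agent.R3.C4H.Odd

/-!
MP_b47bfb_co: Hadwiger's conjecture (hence Q1) for graphs in which any two disjoint pairs of
vertices are joined by an edge, i.e. graphs whose complement has no cycle of length four.
-/

set_option autoImplicit false

namespace Pool.Agent.Results.MP_b47bfb_co.JoinedPairs

/-- `K_k` is a minor of `G`: there are `k` pairwise disjoint vertex sets, each inducing a connected
subgraph, any two of them joined by an edge of `G`. -/
def HasCliqueMinor {V : Type} (G : SimpleGraph V) (k : ℕ) : Prop :=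
  ∃ f : Fin k → Set V,
    (∀ i, (G.induce (f i)).Connected) ∧
    (∀ i j, i ≠ j → Disjoint (f i) (f j)) ∧
    (∀ i j, i ≠ j → ∃ u ∈ f i, ∃ v ∈ f j, G.Adj u v)

/-- Any two disjoint pairs of vertices of `G` are joined by an edge; in other words, the complement
of `G` has no cycle of length four. -/
def PairsJoined {V : Type} (G : SimpleGraph V) : Prop :=
  ∀ a b c d : V, a ≠ b → c ≠ d → a ≠ c → a ≠ d → b ≠ c → b ≠ d →
    G.Adj a c ∨ G.Adj a d ∨ G.Adj b c ∨ G.Adj b d

/-- Hadwiger's conjecture, and hence Q1, holds for every finite graph in which any two disjoint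
pairs of vertices are joined by an edge: if such a graph is not `k`-colourable, then it has a
`K_{k+1}` minor. -/
theorem result (V : Type) [Fintype V] (G : SimpleGraph V) (hG : PairsJoined G) (k : ℕ)
    (hk : ¬ G.Colorable k) : HasCliqueMinor G (k + 1) := by
  have hC : Pool.Agent.R3.C4H.C4Free Gᶜ := by
    intro a b c d hac hbd h1 h2 h3 h4
    rw [SimpleGraph.compl_adj] at h1 h2 h3 h4
    rcases hG a c b d hac hbd h1.1 h4.1.symm h2.1.symm h3.1 with h | h | h | h
    · exact h1.2 h
    · exact h4.2 h.symm
    · exact h2.2 h.symm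
    · exact h3.2 h
  exact Pool.Agent.R3.C4H.main_hadwiger Pool.Agent.R3.C4H.odd_lem _ V G rfl hC k hk

end Pool.Agent.Results.MP_b47bfb_co.JoinedPairs
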