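import Pool.Agent.R553.HW.Perf
import Pool.Agent.R553.HW.Cyc
import Pool.Agent.R553.HW.Clos

/-!
# Hadwiger's conjecture under substitution and gluing along cliques

MP_b47bfb_co: the class of graphs all of whose clique inflations satisfy Hadwiger's conjecture is
closed under substitution, under gluing along cliques and under induced subgraphs, and it contains
all perfect graphs and all odd cycles. In particular every finite graph that is built from perfect
graphs and odd cycles by substitution and gluing along cliques has a `K_χ` minor.

Proof. Let `G` be a substitution with quotient `Q` and pieces `P`. By the assumption on the pieces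
`K_{χ(P)}` is a minor of `P`. Colourings and clique minors of the inflation of `Q` in which the
vertex of `P` is replaced by a clique of size `χ(P)` lift to `G`. For perfect graphs one uses
Lovász's replication lemma. For the inflation of an odd cycle of length `2 m + 1` with cliques of
sizes `w_0, w_1, ...` one has `χ = max (w_i + w_{i+1}, ⌈(∑ w_i) / m⌉)`, and among `m` disjoint edges
that avoid a smallest clique `w_0` some edge satisfies `w_i + w_{i+1} + w_0 ≥ (∑ w_i) / m`; the
`w_0` copies of the rest of the cycle complete the cliques at this edge.
-/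

set_option autoImplicit false

namespace Pool.Agent.Results.MP_b47bfb_co.SubstitutionClosure

/-- `K_k` is a minor of `G`: there are `k` pairwise disjoint vertex sets, each inducing a connected
subgraph, any two of them joined by an edge of `G`. -/
def HasCliqueMinor {V : Type} (G : SimpleGraph V) (k : ℕ) : Prop :=
  ∃ f : Fin k → Set V,
    (∀ i, (G.induce (f i)).Connected) ∧
    (∀ i j, i ≠ j → Disjoint (f i) (f j)) ∧
    (∀ i j, i ≠ j → ∃ u ∈ f i, ∃ v ∈ f j, G.Adj u v)

/-- Hadwiger's conjecture holds for `G`: if `G` is not `k`-colourable then `K_{k+1}` is a minor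
of `G`. -/
def Hadwiger (V : Type) (G : SimpleGraph V) : Prop :=
  ∀ k : ℕ, ¬ G.Colorable k → HasCliqueMinor G (k + 1)

/-- Q1 holds for `G`: if `G` is not `k`-colourable then `K_k` is a minor of `G`. -/
def OffByOne (V : Type) (G : SimpleGraph V) : Prop :=
  ∀ k : ℕ, ¬ G.Colorable k → HasCliqueMinor G k

/-- `G'` is a clique inflation of `G`: every vertex `v` of `G` is replaced by a clique, the set of
the vertices `x` with `π x = v` (possibly empty), and the cliques of adjacent vertices are
completely joined. -/
def IsInflation {V V' : Type} (G : SimpleGraph V) (G' : SimpleGraph V') (π : V' → V) : Prop :=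
  ∀ x y, x ≠ y → (G'.Adj x y ↔ (π x = π y ∨ G.Adj (π x) (π y)))

/-- All finite clique inflations of `G` satisfy `P`. -/
def ForInflations (P : (V : Type) → SimpleGraph V → Prop) {V : Type} (G : SimpleGraph V) : Prop :=
  ∀ (V' : Type) [Finite V'] (G' : SimpleGraph V') (π : V' → V), IsInflation G G' π → P V' G'

/-- `G` is perfect: every induced subgraph without a clique on `k + 1` vertices is
`k`-colourable. -/
def Perfect {V : Type} (G : SimpleGraph V) : Prop :=
  ∀ (S : Set V) (k : ℕ), (G.induce S).CliqueFree (k + 1) → (G.induce S).Colorable k

/-- The graphs built from the class `K`, perfect graphs and odd cycles by substitution, gluing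
along cliques, and passing to (isomorphic copies of) induced subgraphs. In `subst` the fibres of
`p` are modules of `G`, and `Q` is the quotient. In `glue` the graph is the union of the subgraphs
induced by `X` and `Y`, and `X ∩ Y` is a clique. -/
inductive Built (K : (V : Type) → SimpleGraph V → Prop) : (V : Type) → SimpleGraph V → Prop
  | base (V : Type) (G : SimpleGraph V) : K V G → Built K V G
  | perfect (V : Type) (G : SimpleGraph V) : Perfect G → Built K V G
  | oddCycle (m : ℕ) : 1 ≤ m → Built K (Fin (2 * m + 1)) (SimpleGraph.cycleGraph (2 * m + 1))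
  | subst (V I : Type) [Finite I] (G : SimpleGraph V) (Q : SimpleGraph I) (p : V → I) :
      (∀ x y, p x ≠ p y → (G.Adj x y ↔ Q.Adj (p x) (p y))) → Built K I Q →
      (∀ i, Built K {x | p x = i} (G.induce {x | p x = i})) → Built K V G
  | glue (V : Type) (G : SimpleGraph V) (X Y : Set V) : (∀ v, v ∈ X ∨ v ∈ Y) →
      (∀ x y, G.Adj x y → (x ∈ X ∧ y ∈ X) ∨ (x ∈ Y ∧ y ∈ Y)) →
      (∀ x y, x ∈ X → x ∈ Y → y ∈ X → y ∈ Y → x ≠ y → G.Adj x y) →
      Built K X (G.induce X) → Built K Y (G.induce Y) → Built K V G
  | induced (V W : Type) (G : SimpleGraph V) (H : SimpleGraph W) :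
      (H ↪g G) → Built K V G → Built K W H

theorem built_all (K : (V : Type) → SimpleGraph V → Prop)
    (hK : ∀ (V : Type) (G : SimpleGraph V), K V G → ForInflations Hadwiger G) :
    ∀ (V : Type) (G : SimpleGraph V), Built K V G → ForInflations Hadwiger G := by
  intro V G h
  induction h with
  | base V G h => exact hK V G h
  | perfect V G h =>
    intro V' _ G' π hπ
    exact Pool.Agent.R553.HW.perfect_had G G' π hπ h
  | oddCycle m hm =>
    intro V' _ G' π hπ
    exact Pool.Agent.R553.HW.cycle_had m hm G' π hπ
  | subst V I G Q p hp _ _ ih1 ih2 =>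
    exact Pool.Agent.R553.HW.all_subst (@Pool.Agent.R553.HW.Had) (Or.inl rfl) G Q p hp ih1 ih2
  | glue V G X Y h1 h2 h3 _ _ ih1 ih2 =>
    exact Pool.Agent.R553.HW.all_glue G X Y h1 h2 h3 ih1 ih2
  | induced V W G H f _ ih =>
    exact Pool.Agent.R553.HW.all_embed (P := @Pool.Agent.R553.HW.Had) G H f ih

/-- (1) Every finite graph built from perfect graphs and odd cycles by substitution and gluing along
cliques satisfies Hadwiger's conjecture.
(2) If all clique inflations of the members of a class `K` satisfy Hadwiger's conjecture, so do all
clique inflations of the graphs built from `K`, perfect graphs and odd cycles.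
(3) If moreover all clique inflations of a finite graph `Q` satisfy Q1, then so does every
substitution with quotient `Q` all of whose pieces are built in this way, together with all its
clique inflations. -/
theorem result :
    (∀ (V : Type) [Finite V] (G : SimpleGraph V), Built (fun _ _ => False) V G → Hadwiger V G) ∧
    (∀ K : (V : Type) → SimpleGraph V → Prop,
      (∀ (V : Type) (G : SimpleGraph V), K V G → ForInflations Hadwiger G) →
      (∀ (V : Type) (G : SimpleGraph V), Built K V G → ForInflations Hadwiger G) ∧
      (∀ (V I : Type) [Finite I] (G : SimpleGraph V) (Q : SimpleGraph I) (p : V → I),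
        (∀ x y, p x ≠ p y → (G.Adj x y ↔ Q.Adj (p x) (p y))) → ForInflations OffByOne Q →
        (∀ i, Built K {x | p x = i} (G.induce {x | p x = i})) → ForInflations OffByOne G)) := by
  refine ⟨?_, ?_⟩
  · intro V _ G h
    refine built_all _ (fun _ _ h => h.elim) V G h V G id ?_
    intro x y hxy
    exact ⟨fun h => Or.inr h, fun h => h.resolve_left hxy⟩
  · intro K hK
    refine ⟨built_all K hK, ?_⟩
    intro V I _ G Q p hp hQ hG
    exact Pool.Agent.R553.HW.all_subst (@Pool.Agent.R553.HW.Obo) (Or.inr rfl) G Q p hp hQ
      (fun i => built_all K hK _ _ (hG i))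

end Pool.Agent.Results.MP_b47bfb_co.SubstitutionClosure
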