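import Pool.Agent.R931.TK.Col

/-!
# Hadwiger's conjecture passes from a graph to its token graphs

The `k`-token graph of a finite graph `G` has the sets of `k` vertices as vertices, and two of them are adjacent if
they differ by moving one element along an edge of `G` (for `G` complete this is the Johnson graph).

**Theorem.**  Let `G` be a finite graph and `k` a natural number.

1. If `1 ≤ k < |V(G)|` and `K_m` is a minor of `G`, then `K_m` is a minor of the `k`-token graph.
2. If every chromatic lower bound of `G` gives a clique minor with one vertex less (the form of the problem:
  `G` not colourable with `t` colours implies that `K_t` is a minor), then the same holds for the `k`-token graph.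
3. If `G` satisfies Hadwiger's conjecture (`G` not colourable with `t` colours implies that `K_{t+1}` is a
  minor), so does the `k`-token graph.

So all Johnson graphs, and the token graphs of all graphs for which the conjecture is known (for example
perfect graphs, or graphs of chromatic number at most six), satisfy Hadwiger's conjecture.

Proof of 1 (plan: helper804; pieces also by helper746, helper111, helper715): induction on the number of
vertices.  If `|V(G)| = k + 1`, the token graph is isomorphic to `G`.  If a branch set of the minor contains an
edge, contract it: the token graph of the contraction is a minor of the token graph.  If a vertex is in no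
branch set, delete it.  Otherwise `G` is complete; then the sets which contain a vertex `v` form a
connected branch set which is adjacent to all branch sets in the token graph of `G - v`.
For 2 and 3, colour a set by the sum of the colours of its elements.
-/

set_option autoImplicit false

namespace Pool.Agent.Results.MP_b47bfb_co.TokenGraphs

open Pool.Agent.R553.HW Pool.Agent.R804.TK Pool.Agent.R931.TK

theorem result (V : Type) [Finite V] (G : SimpleGraph V) (k : ℕ) :
    (∀ m : ℕ, 1 ≤ k → k < Nat.card V → CMt G (Fin m) → CMt (tok k G) (Fin m)) ∧
      (Obo G → Obo (tok k G)) ∧ (Had G → Had (tok k G)) :=
  ⟨fun m h1 h2 h => tok_minor _ V G k m rfl h1 h2 h, obo_tok G k, had_tok G k⟩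

end Pool.Agent.Results.MP_b47bfb_co.TokenGraphs
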